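import Pool.Agent.Lib_MP_be4ebb_co.Family
import Pool.Agent.Lib_MP_be4ebb_co.Numeric

/-!
The number of biconnected geodetic graphs on `n` vertices tends to infinity.
-/

set_option autoImplicit false

namespace Pool.Agent.Results.MP_be4ebb_co.GeodeticGrowth

open Pool.Agent.Lib_MP_be4ebb_co

/-- The biconnected geodetic graphs with vertex set `Fin n`. -/
abbrev BiconnectedGeodetic (n : ℕ) : Type :=
  {G : SimpleGraph (Fin n) // IsGeodetic G ∧ IsBiconnected G}

/-- The isomorphism relation. -/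
def isoSetoid (n : ℕ) : Setoid (BiconnectedGeodetic n) where
  r G H := Nonempty (G.1 ≃g H.1)
  iseqv :=
    { refl := fun _ => ⟨SimpleGraph.Iso.refl⟩
      symm := fun ⟨e⟩ => ⟨e.symm⟩
      trans := fun ⟨e⟩ ⟨f⟩ => ⟨e.trans f⟩ }

/-- `g n` is the number of isomorphism classes of biconnected geodetic graphs with exactly
`n` vertices. -/
noncomputable def g (n : ℕ) : ℕ := Nat.card (Quotient (isoSetoid n))

theorem bound (n J : ℕ) (hs : 1000 ≤ Nat.sqrt n) (hJ : 20 * (10 + J) ≤ Nat.sqrt n) : J ≤ g n := by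
  classical
  have key : ∀ j : Fin J, ∃ H : BiconnectedGeodetic n,
      adjPairs H.1 + 3 * (Nat.sqrt n + 10 + j) = 2 * n + (Nat.sqrt n + 10 + j) ^ 2 := by
    intro j
    obtain ⟨m, a, b, s, h1, h2, h3, h4⟩ := numeric n j hs (by
      have := j.2
      omega)
    obtain ⟨H, hH1, hH2, hH3⟩ := exists_graph n m a b s h1 h2 h4
    rw [h3] at hH3
    exact ⟨⟨H, hH1, hH2⟩, hH3⟩
  choose H hH using key
  have hinj : Function.Injective (fun j : Fin J => (Quotient.mk (isoSetoid n) (H j))) := by
    intro i j hij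
    obtain ⟨e⟩ : Nonempty ((H i).1 ≃g (H j).1) := Quotient.exact hij
    have h1 := hH i
    have h2 := hH j
    rw [← adjPairs_congr e] at h2
    apply Fin.ext
    rcases Nat.lt_trichotomy (i : ℕ) (j : ℕ) with h | h | h
    · exfalso
      nlinarith
    · exact h
    · exfalso
      nlinarith
  have := Nat.card_le_card_of_injective _ hinj
  rwa [Nat.card_eq_fintype_card, Fintype.card_fin] at this

/-- **Full negative answer to Q1**: there is no constant `c` such that `g n ≤ c` for infinitely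
many `n`; in fact `g n ≥ √n / 25` for all large `n`. -/
theorem result :
    (¬ ∃ c : ℕ, {n : ℕ | g n ≤ c}.Infinite) ∧
    ∃ N : ℕ, ∀ n : ℕ, N ≤ n → Nat.sqrt n ≤ 25 * g n := by
  have key : ∀ n : ℕ, 2000 * 2000 ≤ n → Nat.sqrt n ≤ 25 * g n := by
    intro n hn
    have hs : 2000 ≤ Nat.sqrt n := by
      rw [Nat.le_sqrt]
      exact hn
    have := bound n (Nat.sqrt n / 20 - 10) (by omega) (by omega)
    omega
  refine ⟨?_, 2000 * 2000, key⟩
  rintro ⟨c, hc⟩
  apply hc
  refine (Set.finite_lt_nat (2000 * 2000 + (25 * c + 1) * (25 * c + 1))).subset ?_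
  intro n hn
  simp only [Set.mem_ofPred_eq] at hn ⊢
  by_contra hlt
  push Not at hlt
  have h1 := key n (by omega)
  have h2 : 25 * c + 1 ≤ Nat.sqrt n := by
    rw [Nat.le_sqrt]
    omega
  omega

end Pool.Agent.Results.MP_be4ebb_co.GeodeticGrowth
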